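import Pool.Agent.JT.Main2

/-! Averaging over the seeds (general form). -/

namespace Pool.Agent.Tame44

open Pool.Agent.JT

open Classical in
lemma avg_slices {N n k m r : ℕ} (hN : N = n + (k * m + r)) (Sh : Finset (Fin N → Bool))
    (Bd : Finset (Fin k → Fin m → Bool)) (B : ℝ) (hB : 0 ≤ B)
    (hgood : ∀ a ∉ Bd, ∀ b : Fin r → Bool,
      (((Finset.univ.filter (fun x : Fin n → Bool => unparts hN (x, a, b) ∈ Sh)).card : ℕ) : ℝ) ≤ B) :
    (Sh.card : ℝ) ≤ (Bd.card : ℝ) * 2 ^ r * 2 ^ n + 2 ^ (k * m) * 2 ^ r * B := by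
  have h1 : Sh.card = ∑ p : (Fin k → Fin m → Bool) × (Fin r → Bool),
      (Finset.univ.filter (fun x : Fin n → Bool => unparts hN (x, p.1, p.2) ∈ Sh)).card := by
    have e1 : Sh.card = ∑ y : Fin N → Bool, (if y ∈ Sh then 1 else 0) := by
      rw [← Finset.card_filter]
      congr 1
      ext y; simp
    rw [e1, ← Equiv.sum_comp (splitE hN).symm, Fintype.sum_prod_type, Finset.sum_comm]
    refine Finset.sum_congr rfl fun p _ => ?_
    rw [Finset.card_filter]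
    rfl
  have h2 : (Sh.card : ℝ) = ∑ p : (Fin k → Fin m → Bool) × (Fin r → Bool),
      (((Finset.univ.filter (fun x : Fin n → Bool => unparts hN (x, p.1, p.2) ∈ Sh)).card : ℕ) : ℝ) := by
    rw [h1]; push_cast; rfl
  have h3 : ∀ p : (Fin k → Fin m → Bool) × (Fin r → Bool),
      (((Finset.univ.filter (fun x : Fin n → Bool => unparts hN (x, p.1, p.2) ∈ Sh)).card : ℕ) : ℝ) ≤
      (if p.1 ∈ Bd then (2 : ℝ) ^ n else 0) + B := by
    intro p
    by_cases hp : p.1 ∈ Bd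
    · rw [if_pos hp]
      have h4 : (Finset.univ.filter (fun x : Fin n → Bool => unparts hN (x, p.1, p.2) ∈ Sh)).card ≤
          2 ^ n := by
        refine (Finset.card_le_univ _).trans ?_
        rw [Fintype.card_fun, Fintype.card_bool, Fintype.card_fin]
      have h5 : (((Finset.univ.filter (fun x : Fin n → Bool =>
          unparts hN (x, p.1, p.2) ∈ Sh)).card : ℕ) : ℝ) ≤ 2 ^ n := by exact_mod_cast h4
      linarith
    · rw [if_neg hp, zero_add]
      exact hgood p.1 hp p.2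
  have h6 : ∑ p : (Fin k → Fin m → Bool) × (Fin r → Bool),
      ((if p.1 ∈ Bd then (2 : ℝ) ^ n else 0) + B) =
      (Bd.card : ℝ) * 2 ^ r * 2 ^ n + 2 ^ (k * m) * 2 ^ r * B := by
    rw [Finset.sum_add_distrib]
    congr 1
    · rw [Fintype.sum_prod_type]
      have : ∀ a : Fin k → Fin m → Bool,
          ∑ _b : Fin r → Bool, (if a ∈ Bd then (2 : ℝ) ^ n else 0) =
          if a ∈ Bd then 2 ^ r * (2 : ℝ) ^ n else 0 := by
        intro a
        rw [Finset.sum_const, Finset.card_univ, Fintype.card_fun, Fintype.card_bool,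
          Fintype.card_fin, nsmul_eq_mul]
        push_cast
        split_ifs <;> simp
      rw [Finset.sum_congr rfl fun a _ => this a, ← Finset.sum_filter]
      rw [Finset.filter_mem_eq_inter, Finset.univ_inter, Finset.sum_const, nsmul_eq_mul]
      ring
    · rw [Finset.sum_const, Finset.card_univ, Fintype.card_prod, nsmul_eq_mul]
      congr 1
      rw [Fintype.card_fun, Fintype.card_fun, Fintype.card_fun, Fintype.card_bool,
        Fintype.card_fin, Fintype.card_fin, Fintype.card_fin, ← pow_mul]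
      push_cast
      rw [mul_comm m k]
  rw [h2, ← h6]
  exact Finset.sum_le_sum fun p _ => h3 p

/-- combination of the bounds -/
lemma combine {N n k m r l c : ℕ} (hN : N = n + (k * m + r)) {Sh Lg Bd B E : ℝ} (hE : 0 < E)
    (hE1 : 1 ≤ E * 2 ^ n) (hbig : E * Lg ≤ Sh) (hL : (2 : ℝ) ^ N ≤ 2 ^ (l + 1) * Lg)
    (hSh : Sh ≤ Bd * 2 ^ r * 2 ^ n + 2 ^ (k * m) * 2 ^ r * B)
    (hBd0 : 0 ≤ Bd)
    (hbr : Bd * 2 ^ (l * k) ≤ 2 ^ c * 2 ^ (k * m)) (hc : c + (l + 2 + n) ≤ l * k) :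
    E * 2 ^ n ≤ 2 ^ (l + 2) * B := by
  have hNpow : (2 : ℝ) ^ N = 2 ^ n * (2 ^ (k * m) * 2 ^ r) := by
    rw [← pow_add, ← pow_add, ← hN]
  have hc1 : E * 2 ^ N ≤ 2 ^ (l + 1) * Sh := by
    calc E * 2 ^ N ≤ E * (2 ^ (l + 1) * Lg) := mul_le_mul_of_nonneg_left hL hE.le
      _ = 2 ^ (l + 1) * (E * Lg) := by ring
      _ ≤ 2 ^ (l + 1) * Sh := mul_le_mul_of_nonneg_left hbig (by positivity)
  have hc2 : 2 ^ (l + 2) * (Bd * 2 ^ r * 2 ^ n) ≤ E * 2 ^ N := by
    have e1 : (2 : ℝ) ^ c * 2 ^ (l + 2 + n) ≤ 2 ^ (l * k) := by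
      rw [← pow_add]
      exact pow_le_pow_right₀ (by norm_num) (by omega)
    have e2 : Bd * 2 ^ (l + 2 + n) ≤ 2 ^ (k * m) := by
      have hpos : (0 : ℝ) < 2 ^ c := by positivity
      have e3 : Bd * 2 ^ (l + 2 + n) * 2 ^ c ≤ 2 ^ (k * m) * 2 ^ c := by
        calc Bd * 2 ^ (l + 2 + n) * 2 ^ c = Bd * (2 ^ c * 2 ^ (l + 2 + n)) := by ring
          _ ≤ Bd * 2 ^ (l * k) := mul_le_mul_of_nonneg_left e1 hBd0
          _ ≤ 2 ^ c * 2 ^ (k * m) := hbr
          _ = _ := by ring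
      exact le_of_mul_le_mul_right e3 hpos
    rw [hNpow]
    calc 2 ^ (l + 2) * (Bd * 2 ^ r * 2 ^ n)
        = (Bd * 2 ^ (l + 2 + n)) * 2 ^ r := by rw [pow_add 2 (l + 2) n]; ring
      _ ≤ 2 ^ (k * m) * 2 ^ r := mul_le_mul_of_nonneg_right e2 (by positivity)
      _ = 1 * (2 ^ (k * m) * 2 ^ r) := by ring
      _ ≤ (E * 2 ^ n) * (2 ^ (k * m) * 2 ^ r) :=
          mul_le_mul_of_nonneg_right hE1 (by positivity)
      _ = _ := by ring
  have hc3 : E * 2 ^ N ≤ 2 ^ (l + 2) * (2 ^ (k * m) * 2 ^ r * B) := by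
    have e1 : 2 * (E * 2 ^ N) ≤ 2 ^ (l + 2) * Sh := by
      calc 2 * (E * 2 ^ N) ≤ 2 * (2 ^ (l + 1) * Sh) :=
            mul_le_mul_of_nonneg_left hc1 (by norm_num)
        _ = _ := by rw [pow_succ 2 (l + 1)]; ring
    have e2 : 2 ^ (l + 2) * Sh ≤ 2 ^ (l + 2) *
        (Bd * 2 ^ r * 2 ^ n + 2 ^ (k * m) * 2 ^ r * B) :=
      mul_le_mul_of_nonneg_left hSh (by positivity)
    rw [mul_add] at e2
    linarith
  rw [hNpow] at hc3
  have hpos : (0 : ℝ) < 2 ^ (k * m) * 2 ^ r := by positivity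
  apply le_of_mul_le_mul_right _ hpos
  calc E * 2 ^ n * (2 ^ (k * m) * 2 ^ r) = E * (2 ^ n * (2 ^ (k * m) * 2 ^ r)) := by ring
    _ ≤ _ := hc3
    _ = _ := by ring

end Pool.Agent.Tame44
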