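import Pool.Agent.Tame44.Tame

/-! Decomposable programs inside sensitive grid-free sets. -/

namespace Pool.Agent.Tame44

open Pool.Agent.JT
open Pool.Agent.SemRO (mix RectFree Sensitive)

variable {r m n s : ℕ}

/-- `x` reaches the root through the gate `j` -/
def Reach (P : Prog r m n s) (j₀ : Fin s) (x : Fin n → Bool) (j : Fin s) : Prop :=
  x ∈ P.acc j ∧ ∀ z ∈ P.acc j, mix (P.vars j) z x ∈ P.acc j₀

lemma mix_self (V : Finset (Fin n)) (x : Fin n → Bool) : mix V x x = x := by
  funext i; simp [mix]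

lemma mix_absorb {V W : Finset (Fin n)} (h : V ⊆ W) (z x : Fin n → Bool) :
    mix W (mix V z x) x = mix V z x := by
  funext i
  simp only [mix]
  by_cases hi : i ∈ W
  · rw [if_pos hi]
  · rw [if_neg hi, if_neg fun h' => hi (h h')]

lemma mix_mem {S : Set (Fin n → Bool)} {V : Finset (Fin n)} (h : Dep S V) {z : Fin n → Bool}
    (hz : z ∈ S) (x : Fin n → Bool) : mix V z x ∈ S := by
  refine (h z (mix V z x) fun i hi => ?_).1 hz
  simp [mix, hi]

lemma mix_update {V : Finset (Fin n)} {i : Fin n} (hi : i ∈ V) (x : Fin n → Bool) (b : Bool) :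
    mix V (Function.update x i b) x = Function.update x i b := by
  funext k
  simp only [mix]
  by_cases hk : k ∈ V
  · rw [if_pos hk]
  · rw [if_neg hk, Function.update_of_ne]
    rintro rfl
    exact hk hi

lemma reach_root (P : Prog r m n s) (j₀ : Fin s) {x : Fin n → Bool} (hx : x ∈ P.acc j₀) :
    Reach P j₀ x j₀ := ⟨hx, fun _ hz => mix_mem (P.dep j₀) hz x⟩

lemma Reach.root_mem {P : Prog r m n s} {j₀ j : Fin s} {x : Fin n → Bool}
    (h : Reach P j₀ x j) : x ∈ P.acc j₀ := by
  have := h.2 x h.1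
  rwa [mix_self] at this

/-- all variables of a reached gate are needed -/
lemma Reach.sub {P : Prog r m n s} {j₀ j : Fin s} {x : Fin n → Bool}
    (h : Reach P j₀ x j) {F : Set (Fin n → Bool)} (hF : P.acc j₀ ⊆ F) (hs : Sensitive F)
    {W : Finset (Fin n)} (hW : ∀ i ∉ W, Function.update x i (!x i) ∈ P.acc j) : P.vars j ⊆ W := by
  intro i hi
  by_contra hiW
  have h1 := h.2 _ (hW i hiW)
  rw [mix_update hi] at h1
  exact hs x (hF h.root_mem) i (hF h1)

lemma update_mem {S : Set (Fin n → Bool)} {V : Finset (Fin n)} (h : Dep S V) {x : Fin n → Bool}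
    (hx : x ∈ S) {i : Fin n} (hi : i ∉ V) (b : Bool) : Function.update x i b ∈ S := by
  refine (h x _ fun k hk => ?_).1 hx
  rw [Function.update_of_ne]
  rintro rfl
  exact hi hk

lemma reach_or {P : Prog r m n s} {j₀ j a : Fin s} {x : Fin n → Bool}
    (h : Reach P j₀ x j) (hv : P.vars a ⊆ P.vars j) (hacc : P.acc a ⊆ P.acc j)
    (hx : x ∈ P.acc a) : Reach P j₀ x a := by
  refine ⟨hx, fun z hz => ?_⟩
  have h1 := h.2 _ (hacc (mix_mem (P.dep a) hz x))
  rwa [mix_absorb hv] at h1

lemma reach_and {P : Prog r m n s} {j₀ j a b : Fin s} {x : Fin n → Bool}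
    (h : Reach P j₀ x j) (hv : P.vars a ⊆ P.vars j) (hd : Disjoint (P.vars a) (P.vars b))
    (hacc : P.acc j = P.acc a ∩ P.acc b) : Reach P j₀ x a := by
  have hx := h.1
  rw [hacc] at hx
  refine ⟨hx.1, fun z hz => ?_⟩
  have h2 : mix (P.vars a) z x ∈ P.acc b := by
    refine (P.dep b x _ fun i hi => ?_).1 hx.2
    have : i ∉ P.vars a := fun h' => Finset.disjoint_left.1 hd h' hi
    simp [mix, this]
  have h1 := h.2 (mix (P.vars a) z x) (by rw [hacc]; exact ⟨mix_mem (P.dep a) hz x, h2⟩)
  rwa [mix_absorb hv] at h1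

/-- the good gates -/
def Good (P : Prog r m n s) (j : Fin s) : Prop :=
  (Tame r (P.acc j) ∧ 2 * n < 3 * (P.vars j).card) ∨
    (n ≤ 3 * (P.vars j).card ∧ 3 * (P.vars j).card ≤ 2 * n)

lemma descent {P : Prog r m n s} {j₀ : Fin s} {F : Set (Fin n → Bool)} (hF : P.acc j₀ ⊆ F)
    (hs : Sensitive F) (hm : 3 * m ≤ 2 * n) {x : Fin n → Bool} :
    ∀ k : ℕ, ∀ j : Fin s, (j : ℕ) = k → Reach P j₀ x j → 2 * n < 3 * (P.vars j).card →
      ∃ j', Reach P j₀ x j' ∧ Good P j' := by
  intro k
  induction k using Nat.strong_induction_on with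
  | _ k ih =>
    intro j hjk hR hbig
    rcases P.step j with (hleaf | hleaf) | ⟨A, hA, hacc⟩ | ⟨a, b, haj, hbj, hd, hva, hvb, hacc⟩
    · omega
    · exact ⟨j, hR, Or.inl ⟨hleaf, hbig⟩⟩
    · obtain ⟨a, haA, hxa⟩ := (hacc x).1 hR.1
      obtain ⟨haj, hva⟩ := hA a haA
      have hsub : P.acc a ⊆ P.acc j := fun z hz => (hacc z).2 ⟨a, haA, hz⟩
      have hRa := reach_or hR hva hsub hxa
      have hva' : P.vars j ⊆ P.vars a := hR.sub hF hs fun i hi =>
        hsub (update_mem (P.dep a) hxa hi _)
      have heq : (P.vars a).card = (P.vars j).card := by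
        rw [Finset.Subset.antisymm hva hva']
      exact ih a (by rw [← hjk]; exact haj) a rfl hRa (by rw [heq]; exact hbig)
    · have hRa := reach_and hR hva hd hacc
      have hRb := reach_and hR hvb hd.symm (by rw [hacc, Set.inter_comm])
      have hx := hR.1
      rw [hacc] at hx
      have hcov : P.vars j ⊆ P.vars a ∪ P.vars b := hR.sub hF hs fun i hi => by
        rw [hacc]
        rw [Finset.mem_union, not_or] at hi
        exact ⟨update_mem (P.dep a) hx.1 hi.1 _, update_mem (P.dep b) hx.2 hi.2 _⟩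
      have hcard := (Finset.card_le_card hcov).trans (Finset.card_union_le _ _)
      rcases le_total (P.vars b).card (P.vars a).card with hab | hab
      · by_cases h3 : 3 * (P.vars a).card ≤ 2 * n
        · exact ⟨a, hRa, Or.inr ⟨by omega, h3⟩⟩
        · exact ih a (by rw [← hjk]; exact haj) a rfl hRa (by omega)
      · by_cases h3 : 3 * (P.vars b).card ≤ 2 * n
        · exact ⟨b, hRb, Or.inr ⟨by omega, h3⟩⟩
        · exact ih b (by rw [← hjk]; exact hbj) b rfl hRb (by omega)

/-- restriction to `V`, zero elsewhere -/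
def res (V : Finset (Fin n)) (x : Fin n → Bool) : Fin n → Bool := fun i => if i ∈ V then x i else false

lemma res_eq {V : Finset (Fin n)} {x y : Fin n → Bool} : res V x = res V y ↔ ∀ i ∈ V, x i = y i := by
  constructor
  · intro h i hi
    have := congrFun h i
    simpa [res, hi] using this
  · intro h
    funext i
    unfold res
    split_ifs with hi
    · exact h i hi
    · rfl

open Classical in
lemma card_res (V : Finset (Fin n)) (K : Finset (Fin n → Bool)) :
    (K.image (res V)).card ≤ 2 ^ V.card := by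
  rw [← Finset.card_powerset]
  refine Finset.card_le_card_of_injOn (fun x => Finset.univ.filter (fun i => x i = true)) ?_ ?_
  · intro x hx
    obtain ⟨y, _, rfl⟩ := Finset.mem_image.1 hx
    refine Finset.mem_powerset.2 fun i hi => ?_
    have h1 := (Finset.mem_filter.1 hi).2
    by_contra hiV
    simp [res, hiV] at h1
  · intro x hx y hy h
    funext i
    have h1 : i ∈ Finset.univ.filter (fun i => x i = true) ↔
      i ∈ Finset.univ.filter (fun i => y i = true) := by
      simp only at h
      rw [h]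
    simp only [Finset.mem_filter, Finset.mem_univ, true_and] at h1
    exact Bool.eq_iff_iff.2 h1

open Classical in
lemma card_le_mul (V : Finset (Fin n)) (K : Finset (Fin n → Bool)) :
    K.card ≤ (K.image (res V)).card * (K.image (res Vᶜ)).card := by
  rw [← Finset.card_product]
  refine Finset.card_le_card_of_injOn (fun x => (res V x, res Vᶜ x)) ?_ ?_
  · intro x hx
    exact Finset.mem_product.2 ⟨Finset.mem_image_of_mem _ hx, Finset.mem_image_of_mem _ hx⟩
  · intro x _ y _ h
    simp only [Prod.mk.injEq] at h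
    funext i
    by_cases hi : i ∈ V
    · exact res_eq.1 h.1 i hi
    · exact res_eq.1 h.2 i (Finset.mem_compl.2 hi)

open Classical in
/-- many different restrictions give rows -/
lemma exists_rows {t : ℕ} {V : Finset (Fin n)} {K : Finset (Fin n → Bool)}
    (h : t ≤ (K.image (res V)).card) : ∃ u : Fin t → Fin n → Bool, (∀ i, u i ∈ K) ∧
      ∀ i j, i ≠ j → ∃ x ∈ V, u i x ≠ u j x := by
  have hc : Fintype.card (Fin t) ≤ Fintype.card (K.image (res V)) := by
    rw [Fintype.card_fin, Fintype.card_coe]; exact h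
  obtain ⟨e⟩ := Function.Embedding.nonempty_of_card_le hc
  have h1 : ∀ i, ∃ x ∈ K, res V x = (e i : Fin n → Bool) := fun i =>
    Finset.mem_image.1 (e i).2
  choose u hu hu2 using h1
  refine ⟨u, hu, fun i j hij => ?_⟩
  by_contra hcon
  push Not at hcon
  apply hij
  apply e.injective
  apply Subtype.ext
  rw [← hu2, ← hu2]
  exact res_eq.2 hcon

open Classical in
lemma card_rect {t : ℕ} {F : Set (Fin n → Bool)} (hF : RectFree F t) {V : Finset (Fin n)}
    {K : Finset (Fin n → Bool)} (hK : ∀ x ∈ K, ∀ y ∈ K, mix V x y ∈ F) {c : ℕ}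
    (h1 : V.card ≤ c) (h2 : n - V.card ≤ c) : K.card ≤ t * 2 ^ c := by
  have hsmall : (K.image (res V)).card < t ∨ (K.image (res Vᶜ)).card < t := by
    by_contra hcon
    push Not at hcon
    obtain ⟨u, hu, hu'⟩ := exists_rows hcon.1
    obtain ⟨v, hv, hv'⟩ := exists_rows hcon.2
    obtain ⟨i, j, hij⟩ := hF V u v hu' (fun i j hij => by
      obtain ⟨x, hx, hne⟩ := hv' i j hij
      exact ⟨x, Finset.mem_compl.1 hx, hne⟩)
    exact hij (hK _ (hu i) _ (hv j))
  have hVc : (Vᶜ).card = n - V.card := by rw [Finset.card_compl, Fintype.card_fin]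
  have hp1 : (K.image (res V)).card ≤ 2 ^ c := (card_res V K).trans
    (Nat.pow_le_pow_right (by norm_num) h1)
  have hp2 : (K.image (res Vᶜ)).card ≤ 2 ^ c := (card_res Vᶜ K).trans
    (Nat.pow_le_pow_right (by norm_num) (by rw [hVc]; exact h2))
  refine (card_le_mul V K).trans ?_
  rcases hsmall with h | h
  · exact Nat.mul_le_mul h.le hp2
  · rw [mul_comm]
    exact Nat.mul_le_mul h.le hp1

open Classical in
/-- inputs accepted through a tame gate -/
lemma card_tame {t : ℕ} (hn : 0 < n) {F : Set (Fin n → Bool)} (hF : ProdFree F r t)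
    {P : Prog r m n s} {j₀ j : Fin s} (hFj : P.acc j₀ ⊆ F) (hT : Tame r (P.acc j))
    {c : ℕ} (hc : n - (P.vars j).card ≤ c) :
    (Finset.univ.filter (fun x => Reach P j₀ x j)).card ≤ (n + 1) ^ T0 r t * 2 ^ c := by
  set K := Finset.univ.filter (fun x => Reach P j₀ x j) with hK
  have h1 : (K.image (res (P.vars j)ᶜ)).card ≤ 2 ^ c := (card_res _ K).trans
    (Nat.pow_le_pow_right (by norm_num) (by
      rw [Finset.card_compl, Fintype.card_fin]; exact hc))
  refine le_trans ?_ (Nat.mul_le_mul_left _ h1)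
  refine Finset.card_le_mul_card_image (f := res (P.vars j)ᶜ) K _ fun y hy => ?_
  obtain ⟨x₀, hx₀, rfl⟩ := Finset.mem_image.1 hy
  have hR := (Finset.mem_filter.1 hx₀).2
  -- the tame set
  set S : Finset (Fin n → Bool) := Finset.univ.filter (fun z => z ∈ P.acc j ∧
    ∀ i ∉ P.vars j, z i = x₀ i) with hS
  have hsub : K.filter (fun x => res (P.vars j)ᶜ x = res (P.vars j)ᶜ x₀) ⊆ S := by
    intro x hx
    obtain ⟨hx1, hx2⟩ := Finset.mem_filter.1 hx
    refine Finset.mem_filter.2 ⟨Finset.mem_univ _, (Finset.mem_filter.1 hx1).2.1, fun i hi => ?_⟩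
    exact res_eq.1 hx2 i (Finset.mem_compl.2 hi)
  refine (Finset.card_le_card hsub).trans ?_
  apply tame_small hn hF S
  · intro z hz
    obtain ⟨hz1, hz2⟩ := (Finset.mem_filter.1 (Finset.mem_coe.1 hz)).2
    have h2 := hR.2 z hz1
    have h3 : mix (P.vars j) z x₀ = z := by
      funext i
      simp only [mix]
      by_cases hi : i ∈ P.vars j
      · rw [if_pos hi]
      · rw [if_neg hi, hz2 i hi]
    rw [h3] at h2
    exact hFj h2
  · obtain ⟨ω, hid, hcl, hproj⟩ := hT
    refine ⟨ω, hid, ?_, ?_⟩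
    · intro x hx
      have hx' : ∀ k, x k ∈ P.acc j ∧ ∀ i ∉ P.vars j, x k i = x₀ i := fun k =>
        (Finset.mem_filter.1 (Finset.mem_coe.1 (hx k))).2
      refine Finset.mem_coe.2 (Finset.mem_filter.2 ⟨Finset.mem_univ _,
        hcl x fun k => (hx' k).1, fun i hi => ?_⟩)
      have h4 : (fun k => x k i) = fun _ => x₀ i := funext fun k => (hx' k).2 i hi
      simp only
      rw [h4, hid]
    · intro i hi x hx y hy
      exact hproj i hi x (Finset.mem_filter.1 (Finset.mem_coe.1 hx)).2.1 y
        (Finset.mem_filter.1 (Finset.mem_coe.1 hy)).2.1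

open Classical in
/-- the accepted set of a small program inside a sensitive grid-free set is small -/
theorem prog_bound {t : ℕ} (hn : 0 < n) (hr : 2 ≤ r) (hm : 3 * m ≤ 2 * n)
    {F : Set (Fin n → Bool)} (hF : ProdFree F r t) (hs : Sensitive F) (P : Prog r m n s)
    (j₀ : Fin s) (hFj : P.acc j₀ ⊆ F) :
    (Finset.univ.filter (fun x => x ∈ P.acc j₀)).card ≤
      s * ((t + (n + 1) ^ T0 r t) * 2 ^ (2 * n / 3)) := by
  have hsub : (Finset.univ.filter (fun x => x ∈ P.acc j₀)) ⊆
      (Finset.univ.filter (fun j => Good P j)).biUnion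
        (fun j => Finset.univ.filter (fun x => Reach P j₀ x j)) := by
    intro x hx
    have hx' := (Finset.mem_filter.1 hx).2
    have hR := reach_root P j₀ hx'
    have hall : P.vars j₀ = Finset.univ := by
      rw [Finset.eq_univ_iff_forall]
      intro i
      by_contra hi
      exact hs x (hFj hx') i (hFj (update_mem (P.dep j₀) hx' hi _))
    obtain ⟨j', hj', hg⟩ := descent hFj hs hm j₀ j₀ rfl hR (by
      rw [hall, Finset.card_univ, Fintype.card_fin]; omega)
    exact Finset.mem_biUnion.2 ⟨j', Finset.mem_filter.2 ⟨Finset.mem_univ _, hg⟩,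
      Finset.mem_filter.2 ⟨Finset.mem_univ _, hj'⟩⟩
  refine (Finset.card_le_card hsub).trans (Finset.card_biUnion_le.trans ?_)
  have hB : ∀ j ∈ Finset.univ.filter (fun j => Good P j),
      (Finset.univ.filter (fun x => Reach P j₀ x j)).card ≤
      (t + (n + 1) ^ T0 r t) * 2 ^ (2 * n / 3) := by
    intro j hj
    rw [add_mul]
    rcases (Finset.mem_filter.1 hj).2 with ⟨hT, hbig⟩ | ⟨h1, h2⟩
    · refine le_trans (card_tame hn hF hFj hT (c := 2 * n / 3) (by omega)) (Nat.le_add_left _ _)
    · refine le_trans (card_rect (hF.rect hr) (V := P.vars j) (c := 2 * n / 3) ?_ (by omega)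
        (by omega)) (Nat.le_add_right _ _)
      intro x hx y hy
      have hx' := (Finset.mem_filter.1 hx).2
      have hy' := (Finset.mem_filter.1 hy).2
      exact hFj (hy'.2 x hx'.1)
  refine (Finset.sum_le_card_nsmul _ _ _ hB).trans ?_
  rw [smul_eq_mul]
  apply Nat.mul_le_mul_right
  refine (Finset.card_le_univ _).trans ?_
  rw [Fintype.card_fin]

end Pool.Agent.Tame44
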