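import Pool.Agent.Tame44.TameDefs

/-! Examples of tame sets: solution sets of Horn formulas, of 2-CNF formulas and of systems of
linear equations modulo 2, of any size. -/

namespace Pool.Agent.Tame44

variable {N : ℕ}

/-- the inputs satisfying all clauses; the literal `(i, b)` says `x i = b` -/
def Sat (C : Set (Finset (Fin N × Bool))) : Set (Fin N → Bool) :=
  {x | ∀ c ∈ C, ∃ l ∈ c, x l.1 = l.2}

lemma tame_and {S : Set (Fin N → Bool)} (h : ∀ x ∈ S, ∀ y ∈ S, (fun i => x i && y i) ∈ S) :
    Tame 2 S := by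
  refine ⟨fun _ w => w 0 && w 1, fun _ b => by simp, fun x hx => h _ (hx 0) _ (hx 1), ?_⟩
  rintro i ⟨p, hp⟩
  exfalso
  fin_cases p
  · have := hp ![true, false]
    simp at this
  · have := hp ![false, true]
    simp at this

/-- Horn formulas: at most one positive literal in every clause -/
theorem tame_horn (C : Set (Finset (Fin N × Bool)))
    (hC : ∀ c ∈ C, ∀ i j, (i, true) ∈ c → (j, true) ∈ c → i = j) : Tame 2 (Sat C) := by
  apply tame_and
  intro x hx y hy c hc
  obtain ⟨⟨i, b⟩, hi, hi'⟩ := hx c hc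
  obtain ⟨⟨j, b'⟩, hj, hj'⟩ := hy c hc
  simp only at hi' hj'
  cases b
  · exact ⟨(i, false), hi, by simp [hi']⟩
  · cases b'
    · exact ⟨(j, false), hj, by simp [hj']⟩
    · have := hC c hc i j hi hj
      subst this
      exact ⟨(i, true), hi, by simp [hi', hj']⟩

/-- 2-CNF formulas -/
theorem tame_krom (C : Set (Finset (Fin N × Bool))) (hC : ∀ c ∈ C, c.card ≤ 2) :
    Tame 3 (Sat C) := by
  refine ⟨fun _ w => (w 0 && w 1) || (w 0 && w 2) || (w 1 && w 2), fun _ b => by simp, ?_, ?_⟩
  · intro x hx c hc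
    -- two of the three points satisfy the same literal
    have key : ∀ a b : Fin 3, a ≠ b → (∃ l ∈ c, x a l.1 = l.2 ∧ x b l.1 = l.2) →
        ∃ l ∈ c, ((x 0 l.1 && x 1 l.1) || (x 0 l.1 && x 2 l.1) || (x 1 l.1 && x 2 l.1)) = l.2 := by
      rintro a b hab ⟨l, hl, h1, h2⟩
      refine ⟨l, hl, ?_⟩
      fin_cases a <;> fin_cases b <;> simp_all
      all_goals (try (cases x 0 l.1 <;> cases x 1 l.1 <;> cases x 2 l.1 <;> simp_all))
    choose f hf hf' using fun k => hx k c hc
    have hcard : c.card < (Finset.univ : Finset (Fin 3)).card := by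
      rw [Finset.card_univ, Fintype.card_fin]
      have := hC c hc
      omega
    obtain ⟨a, -, b, -, hab, heq⟩ := Finset.exists_ne_map_eq_of_card_lt_of_maps_to hcard
      (f := f) (fun k _ => hf k)
    exact key a b hab ⟨f a, hf a, hf' a, by rw [heq]; exact hf' b⟩
  · rintro i ⟨p, hp⟩
    exfalso
    fin_cases p
    · have := hp ![true, false, false]
      simp at this
    · have := hp ![false, true, false]
      simp at this
    · have := hp ![false, false, true]
      simp at this

/-- systems of linear equations modulo 2 -/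
theorem tame_affine (C : Set (Finset (Fin N) × Bool)) :
    Tame 3 {x : Fin N → Bool | ∀ c ∈ C, (∑ i ∈ c.1, (x i).toNat) % 2 = c.2.toNat} := by
  refine ⟨fun _ w => xor (w 0) (xor (w 1) (w 2)), fun _ b => by simp, ?_, ?_⟩
  · intro x hx c hc
    have h0 : (∑ i ∈ c.1, (x 0 i).toNat) % 2 = c.2.toNat := hx 0 c hc
    have h1 : (∑ i ∈ c.1, (x 1 i).toNat) % 2 = c.2.toNat := hx 1 c hc
    have h2 : (∑ i ∈ c.1, (x 2 i).toNat) % 2 = c.2.toNat := hx 2 c hc
    have h3 : ∀ s : Finset (Fin N), (∑ i ∈ s, (xor (x 0 i) (xor (x 1 i) (x 2 i))).toNat) % 2 =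
        (∑ i ∈ s, (x 0 i).toNat + ∑ i ∈ s, (x 1 i).toNat + ∑ i ∈ s, (x 2 i).toNat) % 2 := by
      intro s
      induction s using Finset.induction_on with
      | empty => simp
      | insert a s ha ih =>
        rw [Finset.sum_insert ha, Finset.sum_insert ha, Finset.sum_insert ha, Finset.sum_insert ha]
        cases x 0 a <;> cases x 1 a <;> cases x 2 a <;> simp <;> omega
    have h4 := h3 c.1
    change (∑ i ∈ c.1, (xor (x 0 i) (xor (x 1 i) (x 2 i))).toNat) % 2 = c.2.toNat
    rw [h4]
    generalize (∑ i ∈ c.1, (x 0 i).toNat) = a at *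
    generalize (∑ i ∈ c.1, (x 1 i).toNat) = b at *
    generalize (∑ i ∈ c.1, (x 2 i).toNat) = d at *
    generalize c.2.toNat = e at *
    omega
  · rintro i ⟨p, hp⟩
    exfalso
    fin_cases p
    · have := hp ![false, true, false]
      simp at this
    · have := hp ![true, false, false]
      simp at this
    · have := hp ![true, false, false]
      simp at this

end Pool.Agent.Tame44
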