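import Pool.Agent.Tame44.Avg
import Pool.Agent.Tame44.Descent

/-! The lower bound for decomposable programs with tame leaves. -/

namespace Pool.Agent.Tame44

open Pool.Agent.JT
open Pool.Agent.SemRO (mix RectFree Sensitive)

/-- fixing all but the first `n` variables -/
def Prog.restrict {r m N s : ℕ} (P : Prog r m N s) {n : ℕ} (hnN : n ≤ N) (base : Fin N → Bool) :
    Prog r m n s where
  acc j := {x | paste n base x ∈ P.acc j}
  vars j := Finset.univ.filter (fun i : Fin n => Fin.castLE hnN i ∈ P.vars j)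
  dep j := by
    intro x y hxy
    refine P.dep j _ _ fun i hi => ?_
    by_cases h : (i : ℕ) < n
    · simp only [paste, dif_pos h]
      exact hxy _ (Finset.mem_filter.2 ⟨Finset.mem_univ _, hi⟩)
    · simp only [paste, dif_neg h]
  step j := by
    rcases P.step j with (hleaf | hleaf) | ⟨A, hA, hacc⟩ | ⟨a, b, haj, hbj, hd, hva, hvb, hacc⟩
    · left; left
      refine le_trans ?_ hleaf
      refine Finset.card_le_card_of_injOn (Fin.castLE hnN) ?_ ?_
      · intro i hi
        exact (Finset.mem_filter.1 hi).2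
      · intro i _ j _ h
        exact Fin.castLE_injective hnN h
    · left; right
      obtain ⟨ω, hid, hcl, hproj⟩ := hleaf
      refine ⟨fun i => ω (Fin.castLE hnN i), fun i b => hid _ b, ?_, ?_⟩
      · intro x hx
        have h1 := hcl (fun k => paste n base (x k)) hx
        have h2 : (fun i => ω i (fun k => paste n base (x k) i)) =
            paste n base (fun i => ω (Fin.castLE hnN i) (fun k => x k i)) := by
          funext i
          by_cases h : (i : ℕ) < n
          · simp only [paste, dif_pos h]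
            rfl
          · simp only [paste, dif_neg h]
            exact hid _ _
        rw [h2] at h1
        exact h1
      · intro i hi x hx y hy
        have h1 := hproj _ hi _ hx _ hy
        have h3 : ∀ z : Fin n → Bool, paste n base z (Fin.castLE hnN i) = z i := by
          intro z
          have : ((Fin.castLE hnN i : Fin N) : ℕ) < n := i.2
          simp only [paste, dif_pos this]
          rfl
        rw [h3, h3] at h1
        exact h1
    · right; left
      refine ⟨A, fun a ha => ⟨(hA a ha).1, fun i hi => ?_⟩, fun x => hacc _⟩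
      exact Finset.mem_filter.2 ⟨Finset.mem_univ _, (hA a ha).2 (Finset.mem_filter.1 hi).2⟩
    · right; right
      refine ⟨a, b, haj, hbj, ?_, ?_, ?_, ?_⟩
      · rw [Finset.disjoint_left]
        intro i hi hi'
        exact Finset.disjoint_left.1 hd (Finset.mem_filter.1 hi).2 (Finset.mem_filter.1 hi').2
      · intro i hi
        exact Finset.mem_filter.2 ⟨Finset.mem_univ _, hva (Finset.mem_filter.1 hi).2⟩
      · intro i hi
        exact Finset.mem_filter.2 ⟨Finset.mem_univ _, hvb (Finset.mem_filter.1 hi).2⟩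
      · ext x
        change paste n base x ∈ P.acc j ↔ _
        rw [hacc]
        exact Iff.rfl

lemma param_ineq2 {n t ar : ℕ} (hn : 1000 ≤ n) (ht : t = 200 * 2 ^ ar) :
    n * (2 ^ ar + 3 * ar + 2 * t) + (n / 10 + 2 + n) ≤ n / 10 * (t * t) := by
  have h1 : ar ≤ 2 ^ ar := Nat.lt_two_pow_self.le
  have h2 : 1 ≤ 2 ^ ar := Nat.one_le_two_pow
  generalize 2 ^ ar = w at *
  have hl : n ≤ 20 * (n / 10) := by omega
  obtain ⟨l, hldef⟩ : ∃ l, l = n / 10 := ⟨_, rfl⟩
  rw [← hldef] at hl ⊢
  have hl100 : 100 ≤ l := by omega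
  have h3 : w + 3 * ar + 2 * t ≤ 3 * t := by omega
  have h4 : n * (w + 3 * ar + 2 * t) ≤ 20 * l * (3 * t) := Nat.mul_le_mul hl h3
  have h5 : 200 ≤ t := by omega
  have h6 : l * (200 * t) ≤ l * (t * t) := Nat.mul_le_mul_left _ (Nat.mul_le_mul_right _ h5)
  have h7 : l * 200 ≤ l * t := Nat.mul_le_mul_left _ h5
  have h8 : 20 * l * (3 * t) = 60 * (l * t) := by ring
  have h9 : l * (200 * t) = 200 * (l * t) := by ring
  rw [h8] at h4
  rw [h9] at h6
  omega

open Classical in
theorem prog_avg {ar t M D N : ℕ} (har : 2 ≤ ar) (ht : t = 200 * 2 ^ ar)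
    (hM : M = t * t * (t * t) + 1) (hD : D = t * t * M + 2) (hn1 : 1000 ≤ N / D)
    (ε : ℝ) (hε : ε = 1 / (48 * D)) {m s : ℕ} (hm : (m : ℝ) ≤ ε * N) (P : Prog ar m N s)
    (j₀ : Fin s) (hsound : ∀ y ∈ P.acc j₀, lang (t * t) M 10 (List.ofFn y))
    (hbig : (2 : ℝ) ^ (-(ε * N)) *
      ((Finset.univ.filter (fun y : Fin N → Bool => lang (t * t) M 10 (List.ofFn y))).card : ℕ) ≤
      ((Finset.univ.filter (fun y => y ∈ P.acc j₀)).card : ℕ)) :
    (2 : ℝ) ^ (-(ε * N)) * 2 ^ (N / D) ≤ 2 ^ (N / D / 10 + 2) *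
      ((s * ((t + (N / D + 1) ^ T0 ar t) * 2 ^ (2 * (N / D) / 3)) : ℕ) : ℝ) := by
  obtain ⟨n, hn⟩ : ∃ n, n = N / D := ⟨_, rfl⟩
  rw [← hn] at hn1 ⊢
  have hnD : N / (t * t * M + 2) = n := by rw [← hD, hn]
  have hNn : n * D ≤ N := by rw [hn]; exact Nat.div_mul_le_self _ _
  have hDpos : 0 < D := by omega
  have hNn2 : N ≤ 2 * D * n := by
    have h2 : N < N / D * D + D := by
      have := Nat.div_add_mod N D
      have h3 := Nat.mod_lt N hDpos
      rw [mul_comm] at this
      omega
    rw [← hn] at h2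
    have h3 : D ≤ n * D := Nat.le_mul_of_pos_left _ (by omega)
    calc N ≤ n * D + D := h2.le
      _ ≤ n * D + n * D := by omega
      _ = 2 * D * n := by ring
  obtain ⟨ρ, hρ⟩ : ∃ ρ, ρ = N - n - t * t * (M * n) := ⟨_, rfl⟩
  have hexp : n * D = n + t * t * (M * n) + n := by rw [hD]; ring
  have hN : N = n + (t * t * (M * n) + ρ) := by omega
  have hρ0 : 0 < ρ := by omega
  have hnN : n ≤ N := by omega
  obtain ⟨l, hl⟩ : ∃ l, l = n / 10 := ⟨_, rfl⟩
  have hln : l ≤ n := by rw [hl]; exact Nat.div_le_self _ _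
  have hlM : l ≤ M * n := hln.trans (Nat.le_mul_of_pos_left _ (by rw [hM]; omega))
  have hmm : n * (t * t) * (t * t) + l ≤ M * n := by
    have : M * n = n * (t * t) * (t * t) + n := by rw [hM]; ring
    omega
  have htpos : 0 < t := by rw [ht]; positivity
  have htt : 0 < t * t := Nat.mul_pos htpos htpos
  have hpar := param_ineq2 hn1 ht
  rw [← hl] at hpar
  have hn' : (1000 : ℝ) ≤ n := by exact_mod_cast hn1
  have hDr : (0 : ℝ) < D := by exact_mod_cast hDpos
  have hεN : ε * N ≤ n / 24 := by
    have h1 : (N : ℝ) ≤ 2 * D * n := by exact_mod_cast hNn2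
    rw [hε]
    calc 1 / (48 * D) * (N : ℝ) ≤ 1 / (48 * D) * (2 * D * n) :=
          mul_le_mul_of_nonneg_left h1 (by positivity)
      _ = n / 24 := by field_simp; ring
  have hεN0 : 0 ≤ ε * N := by rw [hε]; positivity
  have hm3 : 3 * m ≤ 2 * n := by
    have h1 : (m : ℝ) ≤ n / 24 := hm.trans hεN
    have h2 : 3 * (m : ℝ) ≤ 2 * n := by linarith
    exact_mod_cast h2
  have hLang := lang_card (Δ := 10) htt hnD hN hρ0 (by rw [← hl]; exact hlM)
  rw [← hl] at hLang
  set Bd := Finset.univ.filter (fun a : Fin (t * t) → Fin (M * n) → Bool =>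
      ¬ ProdFree {x : Fin n → Bool | HC l a x} ar t) with hBd
  have hbad := bad_seeds_prod ar t n l (M * n) (by omega) hmm
  rw [← hBd] at hbad
  obtain ⟨B, hB⟩ : ∃ B : ℕ, B = s * ((t + (n + 1) ^ T0 ar t) * 2 ^ (2 * n / 3)) := ⟨_, rfl⟩
  rw [← hB]
  have hgood : ∀ a ∉ Bd, ∀ b : Fin ρ → Bool,
      (((Finset.univ.filter (fun x : Fin n → Bool => unparts hN (x, a, b) ∈
        Finset.univ.filter (fun y => y ∈ P.acc j₀))).card : ℕ) : ℝ) ≤ B := by
    intro a ha b
    have hF : ProdFree {x : Fin n → Bool | HC l a x} ar t := by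
      by_contra hcon
      exact ha (Finset.mem_filter.2 ⟨Finset.mem_univ _, hcon⟩)
    set base := unparts hN (fun _ => false, a, b) with hbase
    have hp : ∀ x, paste n base x = unparts hN (x, a, b) := fun x => paste_unparts hN a b x
    have hsub : {x : Fin n → Bool | lang (t * t) M 10 (List.ofFn (paste n base x))} ⊆
        {x : Fin n → Bool | HC l a x} := by
      intro x hx
      have hx' : lang (t * t) M 10 (List.ofFn (paste n base x)) := hx
      rw [hp x, lang_unparts _ _ _ hnD hN, ← hl] at hx'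
      exact hx'.2
    have h1 := prog_bound (by omega) har hm3 (hF.mono hsub)
      (lang_paste_sensitive (t * t) M 10 hnN base) (P.restrict hnN base) j₀ (by
        intro x hx
        exact hsound _ hx)
    rw [← hB] at h1
    have h2 : (Finset.univ.filter (fun x : Fin n → Bool => unparts hN (x, a, b) ∈
        Finset.univ.filter (fun y => y ∈ P.acc j₀))) =
        Finset.univ.filter (fun x => x ∈ (P.restrict hnN base).acc j₀) := by
      ext x
      simp only [Finset.mem_filter, Finset.mem_univ, true_and]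
      change _ ↔ paste n base x ∈ P.acc j₀
      rw [hp x]
    rw [h2]
    exact_mod_cast h1
  have hSh := avg_slices hN (Finset.univ.filter (fun y => y ∈ P.acc j₀)) Bd (B : ℝ)
    (Nat.cast_nonneg _) hgood
  rw [← hl]
  refine combine hN (by positivity) ?_ hbig (by exact_mod_cast hLang) hSh (Nat.cast_nonneg _)
    (c := n * (2 ^ ar + 3 * ar + 2 * t)) (by exact_mod_cast hbad) hpar
  rw [← Real.rpow_natCast 2 n, ← Real.rpow_add (by norm_num)]
  apply Real.one_le_rpow (by norm_num)
  linarith

end Pool.Agent.Tame44
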