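import Mathlib

/-! The final asymptotic inequality. -/

namespace Pool.Agent.Tame44

open Filter

lemma poly_le_exp (T K : ℕ) : ∀ᶠ n : ℕ in atTop,
    4 * ((K : ℝ) + ((n : ℝ) + 1) ^ T) ≤ 2 ^ ((n : ℝ) / 10) := by
  have hr : (1 : ℝ) < 2 ^ ((1 : ℝ) / 10) := Real.one_lt_rpow (by norm_num) (by norm_num)
  have h1 := (tendsto_pow_const_div_const_pow_of_one_lt T hr).eventually_lt_const
    (u := 1 / (8 * 2 ^ T)) (by positivity)
  have h2 := (tendsto_pow_const_div_const_pow_of_one_lt 0 hr).eventually_lt_const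
    (u := 1 / (8 * ((K : ℝ) + 1))) (by positivity)
  filter_upwards [h1, h2, eventually_ge_atTop 1] with n h1 h2 hn
  have hrn : (0 : ℝ) < ((2 : ℝ) ^ ((1 : ℝ) / 10)) ^ n := by positivity
  have e : (2 : ℝ) ^ ((n : ℝ) / 10) = ((2 : ℝ) ^ ((1 : ℝ) / 10)) ^ n := by
    rw [← Real.rpow_natCast, ← Real.rpow_mul (by norm_num)]
    congr 1
    ring
  rw [e]
  rw [div_lt_iff₀ hrn] at h1 h2
  have hn' : (1 : ℝ) ≤ n := by exact_mod_cast hn
  have h3 : ((n : ℝ) + 1) ^ T ≤ 2 ^ T * (n : ℝ) ^ T := by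
    rw [← mul_pow]
    exact pow_le_pow_left₀ (by positivity) (by linarith) _
  have h4 : 8 * (2 ^ T * (n : ℝ) ^ T) ≤ ((2 : ℝ) ^ ((1 : ℝ) / 10)) ^ n := by
    have := mul_le_mul_of_nonneg_left h1.le (show (0 : ℝ) ≤ 8 * 2 ^ T by positivity)
    calc 8 * (2 ^ T * (n : ℝ) ^ T) = 8 * 2 ^ T * (n : ℝ) ^ T := by ring
      _ ≤ _ := this
      _ = _ := by field_simp
  have h5 : 8 * ((K : ℝ) + 1) ≤ ((2 : ℝ) ^ ((1 : ℝ) / 10)) ^ n := by
    rw [pow_zero] at h2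
    have := mul_le_mul_of_nonneg_left h2.le (show (0 : ℝ) ≤ 8 * ((K : ℝ) + 1) by positivity)
    calc 8 * ((K : ℝ) + 1) = 8 * ((K : ℝ) + 1) * 1 := by ring
      _ ≤ _ := this
      _ = _ := by field_simp
  linarith

/-- end of the computation -/
lemma finish {n s W : ℕ} {e : ℝ} (he : e ≤ n / 24) (_he0 : 0 ≤ e)
    (hW : 4 * (W : ℝ) ≤ 2 ^ ((n : ℝ) / 10)) (hW0 : 0 < W)
    (h : (2 : ℝ) ^ (-e) * 2 ^ n ≤ 2 ^ (n / 10 + 2) * ((s * (W * 2 ^ (2 * n / 3)) : ℕ) : ℝ)) :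
    (2 : ℝ) ^ e ≤ s := by
  by_contra hcon
  push Not at hcon
  have hW0' : (0 : ℝ) < W := by exact_mod_cast hW0
  have e1 : (2 : ℝ) ^ (n / 10 + 2) * ((s * (W * 2 ^ (2 * n / 3)) : ℕ) : ℝ) <
      (2 : ℝ) ^ (n / 10 + 2) * (2 ^ e * (W * 2 ^ (2 * n / 3))) := by
    push_cast
    apply mul_lt_mul_of_pos_left _ (by positivity)
    exact mul_lt_mul_of_pos_right hcon (by positivity)
  have e2 : (2 : ℝ) ^ (n / 10 + 2) * (2 ^ e * (W * 2 ^ (2 * n / 3))) ≤ (2 : ℝ) ^ (-e) * 2 ^ n := by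
    have a1 : (2 : ℝ) ^ (n / 10 + 2) ≤ 2 ^ ((n : ℝ) / 10) * 4 := by
      rw [pow_add]
      have : (2 : ℝ) ^ (n / 10) ≤ 2 ^ ((n : ℝ) / 10) := by
        rw [← Real.rpow_natCast]
        apply Real.rpow_le_rpow_of_exponent_le (by norm_num)
        exact Nat.cast_div_le
      calc (2 : ℝ) ^ (n / 10) * 2 ^ 2 ≤ 2 ^ ((n : ℝ) / 10) * 2 ^ 2 :=
            mul_le_mul_of_nonneg_right this (by norm_num)
        _ = _ := by norm_num
    have a2 : (2 : ℝ) ^ (2 * n / 3) ≤ 2 ^ (2 * (n : ℝ) / 3) := by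
      rw [← Real.rpow_natCast]
      apply Real.rpow_le_rpow_of_exponent_le (by norm_num)
      refine Nat.cast_div_le.trans ?_
      push_cast
      exact le_rfl
    calc (2 : ℝ) ^ (n / 10 + 2) * (2 ^ e * (W * 2 ^ (2 * n / 3)))
        ≤ (2 ^ ((n : ℝ) / 10) * 4) * (2 ^ e * (W * 2 ^ (2 * (n : ℝ) / 3))) := by
          apply mul_le_mul a1 _ (by positivity) (by positivity)
          apply mul_le_mul_of_nonneg_left _ (by positivity)
          exact mul_le_mul_of_nonneg_left a2 hW0'.le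
      _ = (4 * W) * (2 ^ ((n : ℝ) / 10) * 2 ^ e * 2 ^ (2 * (n : ℝ) / 3)) := by ring
      _ ≤ 2 ^ ((n : ℝ) / 10) * (2 ^ ((n : ℝ) / 10) * 2 ^ e * 2 ^ (2 * (n : ℝ) / 3)) :=
          mul_le_mul_of_nonneg_right hW (by positivity)
      _ = 2 ^ ((n : ℝ) / 10 + ((n : ℝ) / 10 + e + 2 * (n : ℝ) / 3)) := by
          rw [Real.rpow_add (by norm_num) ((n : ℝ) / 10), Real.rpow_add (by norm_num) _ (2 * (n : ℝ) / 3),
            Real.rpow_add (by norm_num) _ e]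
      _ ≤ 2 ^ (-e + n) := by
          apply Real.rpow_le_rpow_of_exponent_le (by norm_num)
          linarith
      _ = _ := by rw [Real.rpow_add (by norm_num), Real.rpow_natCast]
  linarith

end Pool.Agent.Tame44
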