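import Pool.Agent.JT.Hash2

/-! Sets that contain no grid generated by a coordinatewise operation. -/

namespace Pool.Agent.Tame44

open Pool.Agent.JT
open Pool.Agent.SemRO (mix RectFree)

/-- coordinatewise application of the operations `ω`, with `u` and `v` in positions `p` and `q` and
`h` elsewhere -/
def opt {n r : ℕ} (ω : Fin n → (Fin r → Bool) → Bool) (p q : Fin r) (h : Fin r → Fin n → Bool)
    (u v : Fin n → Bool) : Fin n → Bool :=
  fun x => ω x (Function.update (Function.update (fun s => h s x) q (v x)) p (u x))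

/-- no grid of `t * t` different points generated by `2 t + r` points -/
def ProdFree {n : ℕ} (F : Set (Fin n → Bool)) (r t : ℕ) : Prop :=
  ∀ (ω : Fin n → (Fin r → Bool) → Bool) (p q : Fin r) (h : Fin r → Fin n → Bool)
    (u v : Fin t → Fin n → Bool),
    Function.Injective (fun s : Fin t × Fin t => opt ω p q h (u s.1) (v s.2)) →
      ∃ i j, opt ω p q h (u i) (v j) ∉ F

lemma ProdFree.mono {n : ℕ} {F G : Set (Fin n → Bool)} {r t : ℕ} (h : ProdFree F r t)
    (hG : G ⊆ F) : ProdFree G r t := by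
  intro ω p q w u v hinj
  obtain ⟨i, j, hij⟩ := h ω p q w u v hinj
  exact ⟨i, j, fun hcon => hij (hG hcon)⟩

/-- rectangles are grids of this kind -/
lemma ProdFree.rect {n : ℕ} {F : Set (Fin n → Bool)} {r t : ℕ} (hr : 2 ≤ r)
    (h : ProdFree F r t) : RectFree F t := by
  intro A u v hu hv
  let p : Fin r := ⟨0, by omega⟩
  let q : Fin r := ⟨1, by omega⟩
  have hpq : p ≠ q := by
    intro h
    have := congrArg Fin.val h
    simp [p, q] at this
  let ω : Fin n → (Fin r → Bool) → Bool := fun x w => if x ∈ A then w p else w q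
  have e : ∀ i j, opt ω p q (fun _ _ => false) (u i) (v j) = mix A (u i) (v j) := by
    intro i j
    funext x
    simp only [opt, mix, ω]
    by_cases hx : x ∈ A
    · rw [if_pos hx, if_pos hx, Function.update_self]
    · rw [if_neg hx, if_neg hx, Function.update_of_ne hpq.symm, Function.update_self]
  have hinj : Function.Injective (fun s : Fin t × Fin t =>
      opt ω p q (fun _ _ => false) (u s.1) (v s.2)) := by
    intro s s' hs
    simp only [e] at hs
    have h1 : s.1 = s'.1 := by
      by_contra hne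
      obtain ⟨x, hx, hne'⟩ := hu _ _ hne
      have := congrFun hs x
      simp only [mix, hx, if_true] at this
      exact hne' this
    have h2 : s.2 = s'.2 := by
      by_contra hne
      obtain ⟨x, hx, hne'⟩ := hv _ _ hne
      have := congrFun hs x
      simp only [mix, hx, if_false] at this
      exact hne' this
    exact Prod.ext h1 h2
  obtain ⟨i, j, hij⟩ := h ω p q (fun _ _ => false) u v hinj
  rw [e] at hij
  exact ⟨i, j, hij⟩

open Classical in
/-- few seeds give a set with a grid -/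
theorem bad_seeds_prod (r t n l m : ℕ) (hn : 0 < n) (hm : n * (t * t) * (t * t) + l ≤ m) :
    (Finset.univ.filter (fun a : Fin (t * t) → Fin m → Bool =>
      ¬ ProdFree {x : Fin n → Bool | HC l a x} r t)).card * 2 ^ (l * (t * t)) ≤
      2 ^ (n * (2 ^ r + 3 * r + 2 * t)) * 2 ^ (t * t * m) := by
  set Bd := Finset.univ.filter (fun a : Fin (t * t) → Fin m → Bool =>
    ¬ ProdFree {x : Fin n → Bool | HC l a x} r t) with hBd
  let Tr := (Fin n → (Fin r → Bool) → Bool) × Fin r × Fin r × (Fin r → Fin n → Bool) ×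
    (Fin t → Fin n → Bool) × (Fin t → Fin n → Bool)
  have hTr : Fintype.card Tr ≤ 2 ^ (n * (2 ^ r + 3 * r + 2 * t)) := by
    simp only [Tr, Fintype.card_prod, Fintype.card_fun, Fintype.card_bool, Fintype.card_fin]
    have h1 : r ≤ 2 ^ (n * r) := by
      calc r ≤ 2 ^ r := Nat.lt_two_pow_self.le
        _ ≤ 2 ^ (n * r) := Nat.pow_le_pow_right (by norm_num) (Nat.le_mul_of_pos_left _ hn)
    calc (2 ^ 2 ^ r) ^ n * (r * (r * ((2 ^ n) ^ r * ((2 ^ n) ^ t * (2 ^ n) ^ t))))
        ≤ (2 ^ 2 ^ r) ^ n * (2 ^ (n * r) * (2 ^ (n * r) * ((2 ^ n) ^ r * ((2 ^ n) ^ t * (2 ^ n) ^ t)))) := by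
          gcongr
      _ = 2 ^ (n * (2 ^ r + 3 * r + 2 * t)) := by
          rw [← pow_mul, ← pow_mul, ← pow_mul, ← pow_add, ← pow_add, ← pow_add, ← pow_add, ← pow_add]
          congr 1
          ring
  let P : Tr → Fin t × Fin t → Fin n → Bool := fun ρ s =>
    opt ρ.1 ρ.2.1 ρ.2.2.1 ρ.2.2.2.1 (ρ.2.2.2.2.1 s.1) (ρ.2.2.2.2.2 s.2)
  let Val : Finset Tr := Finset.univ.filter (fun ρ => Function.Injective (P ρ))
  have hsub : Bd ⊆ Val.biUnion (fun ρ => Finset.univ.filter (fun a : Fin (t * t) → Fin m → Bool =>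
      ∀ s : Fin (t * t), HC l a (P ρ (finProdFinEquiv.symm s)))) := by
    intro a ha
    have ha' := (Finset.mem_filter.1 ha).2
    unfold ProdFree at ha'
    push Not at ha'
    obtain ⟨ω, p, q, h, u, v, hinj, hF⟩ := ha'
    refine Finset.mem_biUnion.2 ⟨(ω, p, q, h, u, v), Finset.mem_filter.2 ⟨Finset.mem_univ _, hinj⟩,
      Finset.mem_filter.2 ⟨Finset.mem_univ _, fun s => hF _ _⟩⟩
  calc Bd.card * 2 ^ (l * (t * t)) ≤ (∑ ρ ∈ Val, (Finset.univ.filter
        (fun a : Fin (t * t) → Fin m → Bool =>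
          ∀ s : Fin (t * t), HC l a (P ρ (finProdFinEquiv.symm s)))).card) * 2 ^ (l * (t * t)) :=
        Nat.mul_le_mul_right _ ((Finset.card_le_card hsub).trans Finset.card_biUnion_le)
    _ = ∑ ρ ∈ Val, 2 ^ (t * t * m) := by
        rw [Finset.sum_mul]
        refine Finset.sum_congr rfl fun ρ hρ => ?_
        have hinj := (Finset.mem_filter.1 hρ).2
        exact count_k hm _ (hinj.comp finProdFinEquiv.symm.injective)
    _ = Val.card * 2 ^ (t * t * m) := by rw [Finset.sum_const, smul_eq_mul]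
    _ ≤ 2 ^ (n * (2 ^ r + 3 * r + 2 * t)) * 2 ^ (t * t * m) := by
        apply Nat.mul_le_mul_right
        exact (Finset.card_le_univ _).trans hTr

end Pool.Agent.Tame44
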