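import Mathlib

/-! Sets closed under a coordinatewise operation, and decomposable programs over them. -/

namespace Pool.Agent.Tame44

/-- `ω` returns one of its arguments -/
def IsProj {r : ℕ} (ω : (Fin r → Bool) → Bool) : Prop := ∃ p : Fin r, ∀ w, ω w = w p

/-- `S` is tame: it is closed under a coordinatewise application of idempotent operations
`ω i : {0,1}^r → {0,1}` (one for each coordinate `i`), where `ω i` is not a projection unless all
members of `S` agree at `i`. -/
def Tame (r : ℕ) {N : ℕ} (S : Set (Fin N → Bool)) : Prop :=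
  ∃ ω : Fin N → (Fin r → Bool) → Bool,
    (∀ i b, ω i (fun _ => b) = b) ∧
    (∀ x : Fin r → Fin N → Bool, (∀ j, x j ∈ S) → (fun i => ω i (fun j => x j i)) ∈ S) ∧
    ∀ i, IsProj (ω i) → ∀ x ∈ S, ∀ y ∈ S, x i = y i

/-- `S` depends only on the variables in `V` -/
def Dep {N : ℕ} (S : Set (Fin N → Bool)) (V : Finset (Fin N)) : Prop :=
  ∀ x y : Fin N → Bool, (∀ i ∈ V, x i = y i) → (x ∈ S ↔ y ∈ S)

/-- A decomposable program (circuit) with `s` gates over `N` variables. Gate `j` accepts the set
`acc j` of inputs, which depends on the variables in `vars j` only. It is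
* a leaf: any set at all of at most `m` variables, or any tame set;
* an OR of any number of earlier gates, or
* an AND of two earlier gates on disjoint sets of variables. -/
structure Prog (r m N s : ℕ) where
  /-- the accepted inputs -/
  acc : Fin s → Set (Fin N → Bool)
  /-- the variables -/
  vars : Fin s → Finset (Fin N)
  dep : ∀ j, Dep (acc j) (vars j)
  step : ∀ j, ((vars j).card ≤ m ∨ Tame r (acc j)) ∨
    (∃ A : Set (Fin s), (∀ a ∈ A, a < j ∧ vars a ⊆ vars j) ∧ ∀ x, x ∈ acc j ↔ ∃ a ∈ A, x ∈ acc a) ∨
    (∃ a b, a < j ∧ b < j ∧ Disjoint (vars a) (vars b) ∧ vars a ⊆ vars j ∧ vars b ⊆ vars j ∧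
      acc j = acc a ∩ acc b)

end Pool.Agent.Tame44
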