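import Pool.Agent.Tame44.Prod
import Pool.Agent.Tame44.TameDefs

/-! Tame subsets of grid-free sets are small. -/

namespace Pool.Agent.Tame44

open Pool.Agent.JT

/-- `ω` depends on its argument number `p` -/
def Ess {r : ℕ} (ω : (Fin r → Bool) → Bool) (p : Fin r) : Prop :=
  ∃ w, ω (Function.update w p (!w p)) ≠ ω w

lemma eq_of_indep {r : ℕ} {ω : (Fin r → Bool) → Bool} {p : Fin r}
    (h : ∀ q, q ≠ p → ¬ Ess ω q) (w w' : Fin r → Bool) (hp : w p = w' p) : ω w = ω w' := by
  have key : ∀ D : Finset (Fin r), ω (fun i => if i ∈ D then w' i else w i) = ω w := by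
    intro D
    induction D using Finset.induction_on with
    | empty => simp
    | insert q D hq ih =>
      rw [← ih]
      set z : Fin r → Bool := fun i => if i ∈ D then w' i else w i with hz
      have hins : (fun i => if i ∈ insert q D then w' i else w i) = Function.update z q (w' q) := by
        funext i
        by_cases hi : i = q
        · subst hi; simp
        · rw [Function.update_of_ne hi]; simp [hz, hi]
      rw [hins]
      by_cases hzq : w' q = z q
      · rw [hzq, Function.update_eq_self]
      · have h1 : w' q = !z q := by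
          revert hzq; cases w' q <;> cases z q <;> simp
        have hqp : q ≠ p := by
          intro hqp
          subst hqp
          apply hzq
          simp only [hz, hq, if_false]
          exact hp.symm
        have h2 := h q hqp
        unfold Ess at h2
        push Not at h2
        rw [h1]
        exact h2 z
  have := key Finset.univ
  simp only [Finset.mem_univ, if_true] at this
  exact this.symm

lemma two_ess {r : ℕ} {ω : (Fin r → Bool) → Bool} (hid : ∀ b, ω (fun _ => b) = b)
    (hnp : ¬ IsProj ω) : ∃ p q, p ≠ q ∧ Ess ω p ∧ Ess ω q := by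
  by_contra hcon
  push Not at hcon
  have key : ∀ p, (∀ q, q ≠ p → ¬ Ess ω q) → False := by
    intro p hp
    exact hnp ⟨p, fun w => by rw [eq_of_indep hp w (fun _ => w p) rfl, hid]⟩
  by_cases h : ∃ p, Ess ω p
  · obtain ⟨p, hp⟩ := h
    exact key p fun q hq hq' => hcon p q hq.symm hp hq'
  · push Not at h
    rcases Nat.eq_zero_or_pos r with hr | hr
    · subst hr
      have h1 := hid true
      have h2 := hid false
      have h3 : (fun _ : Fin 0 => true) = fun _ => false := funext fun i => i.elim0
      rw [h3, h2] at h1
      exact absurd h1 (by simp)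
    · exact key ⟨0, hr⟩ fun q _ => h q

/-- the size of shattered sets that is too large -/
def T0 (r t : ℕ) : ℕ := 2 ^ 2 ^ r * 2 ^ (2 * t + r)

open Classical in
lemma no_shatter {n r t : ℕ} {F S : Set (Fin n → Bool)} (hF : ProdFree F r t) (hSF : S ⊆ F)
    (hS : Tame r S) (T : Finset (Fin n)) (hT : T0 r t ≤ T.card)
    (hsh : ∀ T' : Finset (Fin n), T' ⊆ T → ∃ x ∈ S, ∀ i ∈ T, (x i = true ↔ i ∈ T')) : False := by
  obtain ⟨ω, hid, hcl, hproj⟩ := hS
  -- members of T carry nonprojections
  have hnp : ∀ i ∈ T, ¬ IsProj (ω i) := by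
    intro i hi hpr
    obtain ⟨x, hx, hx'⟩ := hsh T (Finset.Subset.refl _)
    obtain ⟨y, hy, hy'⟩ := hsh ∅ (Finset.empty_subset _)
    have h1 := hproj i hpr x hx y hy
    have h2 := (hx' i hi).2 hi
    rw [h1] at h2
    exact absurd ((hy' i hi).1 h2) (Finset.notMem_empty _)
  -- pigeonhole
  have hcard : (Finset.univ : Finset ((Fin r → Bool) → Bool)).card * 2 ^ (2 * t + r) ≤ T.card := by
    rw [Finset.card_univ, Fintype.card_fun, Fintype.card_fun, Fintype.card_bool, Fintype.card_fin]
    exact hT
  obtain ⟨ω₀, -, hfib⟩ := Finset.exists_le_card_fiber_of_mul_le_card_of_maps_to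
    (f := ω) (fun i _ => Finset.mem_univ (ω i)) Finset.univ_nonempty hcard
  set T' := T.filter (fun i => ω i = ω₀) with hT'
  let J := Fin t ⊕ Fin t ⊕ Fin r
  have hJ : Fintype.card (J → Bool) = 2 ^ (2 * t + r) := by
    rw [Fintype.card_fun, Fintype.card_bool]
    congr 1
    simp only [J, Fintype.card_sum, Fintype.card_fin]
    ring
  have hcard2 : Fintype.card (J → Bool) ≤ Fintype.card T' := by
    rw [hJ, Fintype.card_coe]; exact hfib
  obtain ⟨e⟩ := Function.Embedding.nonempty_of_card_le hcard2
  have heT : ∀ c, (e c : Fin n) ∈ T := fun c => (Finset.mem_filter.1 (e c).2).1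
  have heω : ∀ c, ω (e c : Fin n) = ω₀ := fun c => (Finset.mem_filter.1 (e c).2).2
  have heinj : ∀ c c', (e c : Fin n) = (e c' : Fin n) → c = c' := fun c c' h =>
    e.injective (Subtype.ext h)
  -- generators
  have hgen : ∀ j : J, ∃ x ∈ S, ∀ c : J → Bool, x (e c) = c j := by
    intro j
    obtain ⟨x, hx, hx'⟩ := hsh ((Finset.univ.filter (fun c : J → Bool => c j = true)).image
      (fun c => (e c : Fin n))) (by
        intro i hi
        obtain ⟨c, _, rfl⟩ := Finset.mem_image.1 hi
        exact heT c)
    refine ⟨x, hx, fun c => ?_⟩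
    have h1 := hx' (e c) (heT c)
    have h2 : ((e c : Fin n) ∈ (Finset.univ.filter (fun c : J → Bool => c j = true)).image
      (fun c => (e c : Fin n))) ↔ c j = true := by
      constructor
      · intro h
        obtain ⟨c', hc', hcc⟩ := Finset.mem_image.1 h
        rw [← heinj _ _ hcc]
        exact (Finset.mem_filter.1 hc').2
      · intro h
        exact Finset.mem_image.2 ⟨c, Finset.mem_filter.2 ⟨Finset.mem_univ _, h⟩, rfl⟩
    rw [h2] at h1
    exact Bool.eq_iff_iff.2 h1
  choose g hgS hg using hgen
  obtain ⟨i₀, hi₀⟩ : ∃ i, i ∈ T := ⟨_, heT (fun _ => true)⟩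
  have hω₀ : ¬ IsProj ω₀ := by
    rw [← heω (fun _ => true)]
    exact hnp _ (heT _)
  have hid₀ : ∀ b, ω₀ (fun _ => b) = b := by
    intro b
    rw [← heω (fun _ => true)]
    exact hid _ b
  obtain ⟨p, q, hpq, ⟨wp, hwp⟩, ⟨wq, hwq⟩⟩ := two_ess hid₀ hω₀
  let u : Fin t → Fin n → Bool := fun i => g (Sum.inl i)
  let v : Fin t → Fin n → Bool := fun i => g (Sum.inr (Sum.inl i))
  let h : Fin r → Fin n → Bool := fun s => g (Sum.inr (Sum.inr s))
  -- values
  have hval : ∀ (c : J → Bool) (i j : Fin t), opt ω p q h (u i) (v j) (e c) =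
      ω₀ (Function.update (Function.update (fun s => c (Sum.inr (Sum.inr s))) q
        (c (Sum.inr (Sum.inl j)))) p (c (Sum.inl i))) := by
    intro c i j
    simp only [opt, heω, u, v, h, hg]
  have hinj : Function.Injective (fun s : Fin t × Fin t => opt ω p q h (u s.1) (v s.2)) := by
    rintro ⟨i, j⟩ ⟨i', j'⟩ hs
    simp only at hs
    have hi : i = i' := by
      by_contra hne
      let c : J → Bool := Sum.elim (fun k => if k = i then !wp p else wp p)
        (Sum.elim (fun _ => wp q) wp)
      have h1 := congrFun hs (e c)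
      rw [hval, hval] at h1
      simp only [c, Sum.elim_inl, Sum.elim_inr, if_true] at h1
      rw [if_neg (fun h : i' = i => hne h.symm)] at h1
      apply hwp
      have e1 : Function.update (fun s => wp s) q (wp q) = wp := by
        rw [Function.update_eq_self]
      rw [e1, Function.update_eq_self] at h1
      exact h1
    have hj : j = j' := by
      by_contra hne
      let c : J → Bool := Sum.elim (fun _ => wq p)
        (Sum.elim (fun k => if k = j then !wq q else wq q) wq)
      have h1 := congrFun hs (e c)
      rw [hval, hval] at h1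
      simp only [c, Sum.elim_inl, Sum.elim_inr, if_true] at h1
      rw [if_neg (fun h : j' = j => hne h.symm)] at h1
      apply hwq
      have e1 : Function.update (Function.update (fun s => wq s) q (!wq q)) p (wq p) =
          Function.update wq q (!wq q) := by
        have : wq p = Function.update (fun s => wq s) q (!wq q) p := by
          rw [Function.update_of_ne hpq]
        conv_lhs => rw [this]
        rw [Function.update_eq_self]
      have e2 : Function.update (fun s => wq s) q (wq q) = wq := by
        rw [Function.update_eq_self]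
      rw [e1, e2, Function.update_eq_self] at h1
      exact h1
    rw [hi, hj]
  obtain ⟨i, j, hij⟩ := hF ω p q h u v hinj
  apply hij
  apply hSF
  have h1 := hcl (Function.update (Function.update h q (v j)) p (u i)) (by
    intro s
    by_cases hsp : s = p
    · subst hsp; rw [Function.update_self]; exact hgS _
    · rw [Function.update_of_ne hsp]
      by_cases hsq : s = q
      · subst hsq; rw [Function.update_self]; exact hgS _
      · rw [Function.update_of_ne hsq]; exact hgS _)
  have h2 : opt ω p q h (u i) (v j) = fun x => ω x (fun s =>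
      (Function.update (Function.update h q (v j)) p (u i)) s x) := by
    funext x
    simp only [opt]
    congr 1
    funext s
    by_cases hsp : s = p
    · subst hsp; rw [Function.update_self, Function.update_self]
    · rw [Function.update_of_ne hsp, Function.update_of_ne hsp]
      by_cases hsq : s = q
      · subst hsq; rw [Function.update_self, Function.update_self]
      · rw [Function.update_of_ne hsq, Function.update_of_ne hsq]
  rw [h2]
  exact h1

lemma sum_pow_le {n : ℕ} (hn : 0 < n) (T : ℕ) : ∑ k ∈ Finset.range T, n.choose k ≤ (n + 1) ^ T := by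
  induction T with
  | zero => simp
  | succ T ih =>
    rw [Finset.sum_range_succ]
    have h1 : n.choose T ≤ (n + 1) ^ T := (Nat.choose_le_pow n T).trans (Nat.pow_le_pow_left (by omega) _)
    calc _ ≤ (n + 1) ^ T + (n + 1) ^ T := add_le_add ih h1
      _ = (n + 1) ^ T * 2 := by ring
      _ ≤ (n + 1) ^ T * (n + 1) := Nat.mul_le_mul_left _ (by omega)
      _ = _ := by rw [pow_succ]

open Classical in
/-- tame subsets of grid-free sets are small -/
theorem tame_small {n r t : ℕ} (hn : 0 < n) {F : Set (Fin n → Bool)} (hF : ProdFree F r t)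
    (S : Finset (Fin n → Bool)) (hSF : (S : Set (Fin n → Bool)) ⊆ F)
    (hS : Tame r (S : Set (Fin n → Bool))) : S.card ≤ (n + 1) ^ T0 r t := by
  let φ : (Fin n → Bool) → Finset (Fin n) := fun x => Finset.univ.filter (fun i => x i = true)
  have hφ : Function.Injective φ := by
    intro x y h
    funext i
    have h1 : i ∈ φ x ↔ i ∈ φ y := by rw [h]
    simp only [φ, Finset.mem_filter, Finset.mem_univ, true_and] at h1
    exact Bool.eq_iff_iff.2 h1
  set 𝒜 := S.image φ with h𝒜
  have hc : 𝒜.card = S.card := Finset.card_image_of_injective _ hφ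
  rw [← hc]
  refine (Finset.card_le_card_shatterer 𝒜).trans ?_
  have hsub : 𝒜.shatterer ⊆ (Finset.range (T0 r t)).biUnion
      (fun k => Finset.powersetCard k (Finset.univ : Finset (Fin n))) := by
    intro T hT
    rw [Finset.mem_shatterer] at hT
    refine Finset.mem_biUnion.2 ⟨T.card, Finset.mem_range.2 ?_, Finset.mem_powersetCard.2
      ⟨Finset.subset_univ _, rfl⟩⟩
    by_contra hcon
    push Not at hcon
    refine no_shatter hF hSF hS T hcon ?_
    intro T' hT'
    obtain ⟨u, hu, hTu⟩ := hT hT'
    obtain ⟨x, hx, rfl⟩ := Finset.mem_image.1 hu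
    refine ⟨x, hx, fun i hi => ?_⟩
    have h1 : i ∈ T ∩ φ x ↔ i ∈ T' := by rw [hTu]
    simp only [φ, Finset.mem_inter, Finset.mem_filter, Finset.mem_univ, true_and, hi] at h1
    exact h1
  refine (Finset.card_le_card hsub).trans (Finset.card_biUnion_le.trans ?_)
  refine le_trans (le_of_eq ?_) (sum_pow_le hn (T0 r t))
  refine Finset.sum_congr rfl fun k _ => ?_
  rw [Finset.card_powersetCard, Finset.card_univ, Fintype.card_fin]

end Pool.Agent.Tame44
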